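import Mathlib
import Pool.Agent.helper12.KZ.Spec

/-! Project kz, row KBS. -/

set_option autoImplicit false

namespace Pool.Agent.KZ

open Pool.Agent.helper58.DC Pool.Agent.DI Pool.Agent.TY

section

variable {Γ A : Type} [Group Γ] [Group A]

theorem KBS_inf (π : Γ →* A) (G' N : Subgroup Γ) (hle : G' ≤ π.ker) :
    (N ⊓ π.ker) ⊓ G' = N ⊓ G' := by
  rw [inf_assoc, inf_eq_right.2 hle]

theorem KBS_rel [Finite Γ] (π : Γ →* A) (G' N : Subgroup Γ) (l : ℕ) (h : Fr l π G') :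
    (N ⊓ G').relIndex (N ⊓ π.ker) ∣ l := by
  haveI := h.nor
  have h1 : (N ⊓ G').relIndex (N ⊓ π.ker) = G'.relIndex (N ⊓ π.ker) := by
    rw [← KBS_inf π G' N h.le, Subgroup.inf_relIndex_left]
  rw [h1]
  refine Dvd.dvd.trans ?_ h.idx
  have h2 := Subgroup.relIndex_dvd_index_of_normal (G'.subgroupOf π.ker)
    ((N ⊓ π.ker).subgroupOf π.ker)
  rw [Subgroup.relIndex_subgroupOf inf_le_right] at h2
  exact h2

theorem KBS_nor (π : Γ →* A) (G' N : Subgroup Γ) (hn : G'.Normal) (hle : G' ≤ π.ker) :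
    ((N ⊓ G').subgroupOf (N ⊓ π.ker)).Normal := by
  haveI := hn
  rw [← KBS_inf π G' N hle, Subgroup.inf_subgroupOf_left]
  infer_instance

theorem KBS_cyc [Finite Γ] (π : Γ →* A) (G' N : Subgroup Γ) (l : ℕ) [Fact l.Prime]
    (h : Fr l π G') : CycQ ((N ⊓ G').subgroupOf (N ⊓ π.ker)) := by
  have hn := KBS_nor π G' N h.nor h.le
  refine ⟨hn, ?_⟩
  haveI := hn
  have hd : ((N ⊓ G').subgroupOf (N ⊓ π.ker)).index ∣ l := KBS_rel π G' N l h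
  have hcyc : IsCyclic (↥(N ⊓ π.ker) ⧸ (N ⊓ G').subgroupOf (N ⊓ π.ker)) := by
    rcases (Nat.dvd_prime (Fact.out : l.Prime)).1 hd with h1 | h1
    · have h2 : Nat.card (↥(N ⊓ π.ker) ⧸ (N ⊓ G').subgroupOf (N ⊓ π.ker)) = 1 := h1
      haveI : Subsingleton (↥(N ⊓ π.ker) ⧸ (N ⊓ G').subgroupOf (N ⊓ π.ker)) :=
        (Nat.card_eq_one_iff_unique.1 h2).1
      exact isCyclic_of_subsingleton
    · exact isCyclic_of_prime_card (p := l) h1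
  obtain ⟨g, hg⟩ := hcyc.exists_generator
  obtain ⟨s, rfl⟩ := QuotientGroup.mk_surjective g
  refine ⟨s, fun x => ?_⟩
  obtain ⟨k, hk⟩ := hg ((x : ↥(N ⊓ π.ker) ⧸ (N ⊓ G').subgroupOf (N ⊓ π.ker))⁻¹)
  refine ⟨k, ?_⟩
  rw [← QuotientGroup.eq_one_iff]
  have hk' : (s : ↥(N ⊓ π.ker) ⧸ (N ⊓ G').subgroupOf (N ⊓ π.ker)) ^ k =
    (x : ↥(N ⊓ π.ker) ⧸ (N ⊓ G').subgroupOf (N ⊓ π.ker))⁻¹ := hk
  rw [QuotientGroup.mk_mul, QuotientGroup.mk_zpow, hk', inv_mul_cancel]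

/-- conjugation by elements of `N` preserves `N ⊓ π.ker` -/
theorem KBS_conj (N H : Subgroup Γ) (hH : H.Normal) (n : Γ) (hn : n ∈ N) :
    (N ⊓ H).map (MulAut.conj n).toMonoidHom = N ⊓ H := by
  ext x
  rw [Subgroup.mem_map]
  constructor
  · rintro ⟨y, ⟨hy1, hy2⟩, rfl⟩
    refine ⟨?_, ?_⟩
    · exact N.mul_mem (N.mul_mem hn hy1) (N.inv_mem hn)
    · exact hH.conj_mem y hy2 n
  · rintro ⟨hx1, hx2⟩
    refine ⟨n⁻¹ * x * n, ⟨?_, ?_⟩, ?_⟩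
    · exact N.mul_mem (N.mul_mem (N.inv_mem hn) hx1) hn
    · have := hH.conj_mem x hx2 n⁻¹
      simpa using this
    · simp [MulAut.conj_apply]
      group

theorem KBS_fm (n : Γ) (φ : Γ → ℂ) (x : Γ) :
    funMap (MulAut.conj n) φ x = φ (n⁻¹ * x * n) := by
  unfold funMap
  rw [MulAut.conj_inv_apply]

end

theorem KBS_main (Γ A : Type) [Group Γ] [Group A] [Finite Γ] (l : ℕ) [Fact l.Prime]
    (hNoN : NoN l A) (π : Γ →* A) (G' N : Subgroup Γ) (hF : Fr l π G') (hN : N.map π = ⊤)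
    (ψ : Γ → ℂ) (hψ : ψ ∈ IrrOn (N ⊓ G')) (hst : stF N ψ = N) (φ : Γ → ℂ)
    (hφ : φ ∈ IrrOn (N ⊓ π.ker)) (hov : OverP (N ⊓ G') (N ⊓ π.ker) φ ψ)
    (hIF : IF_stmt) (hB2 : B2_stmt) (hB5 : B5_stmt) (hB8 : B8_stmt) :
    ∀ n ∈ N, funMap (MulAut.conj n) φ = φ := by
  classical
  have hinv : ∀ n ∈ N, ∀ x, ψ (n⁻¹ * x * n) = ψ x := by
    intro n hn x
    rw [← hst] at hn
    have h1 := congrFun hn.2 x
    rw [KBS_fm] at h1
    exact h1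
  have hφψ : ∀ x ∈ N ⊓ G', φ x = ψ x := by
    intro x hx
    rw [hov x hx]
    have h1 : {ψ' : Γ → ℂ | ∃ n ∈ N ⊓ π.ker, ψ' = funMap (MulAut.conj n) ψ} = {ψ} := by
      ext ψ'
      constructor
      · rintro ⟨n, hn, rfl⟩
        rw [Set.mem_singleton_iff]
        funext y
        rw [KBS_fm]
        exact hinv n hn.1 y
      · intro h
        rw [Set.mem_singleton_iff] at h
        refine ⟨1, (N ⊓ π.ker).one_mem, ?_⟩
        rw [h]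
        funext y
        rw [KBS_fm]
        simp
    rw [h1, finsum_mem_singleton]
  obtain ⟨Λ, i1, i2, lam, hinj, hcard, htriv, hsum⟩ :=
    hB5 ↥(N ⊓ π.ker) ((N ⊓ G').subgroupOf (N ⊓ π.ker)) (KBS_cyc π G' N l hF)
  have hker : π.ker.Normal := inferInstance
  -- the conjugates of φ are irreducible
  have hcirr : ∀ n ∈ N, (fun x : ↥(N ⊓ π.ker) => φ (n⁻¹ * (x : Γ) * n)) ∈
      Irr ↥(N ⊓ π.ker) := by
    intro n hn
    have h1 := ((hIF Γ (N ⊓ π.ker)).2 φ hφ).2.2 (MulAut.conj n)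
    rw [KBS_conj N π.ker hker n hn] at h1
    have h2 := h1.2
    have h3 : (fun x : ↥(N ⊓ π.ker) => φ (n⁻¹ * (x : Γ) * n)) =
        fun x : ↥(N ⊓ π.ker) => funMap (MulAut.conj n) φ (x : Γ) := by
      funext x
      rw [KBS_fm]
    rw [h3]
    exact h2
  -- the number of solutions is one
  have hone : ∀ n ∈ N, Nat.card {a : Λ // ∀ x : ↥(N ⊓ π.ker),
      ((lam a x : ℂˣ) : ℂ) * φ (x : Γ) = φ (n⁻¹ * (x : Γ) * n)} = 1 := by
    intro n hn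
    have h1 := hB8 ↥(N ⊓ π.ker) ((N ⊓ G').subgroupOf (N ⊓ π.ker)) Λ lam hcard htriv hsum
      (fun x : ↥(N ⊓ π.ker) => φ (x : Γ)) hφ.2
      (fun x : ↥(N ⊓ π.ker) => φ (n⁻¹ * (x : Γ) * n)) (hcirr n hn)
    have h2 := ((hB2 Γ (N ⊓ G')).2 ψ hψ).2.2.2.2 ψ hψ
    rw [if_pos rfl] at h2
    have h3 : ∑ᶠ x ∈ (((N ⊓ G').subgroupOf (N ⊓ π.ker) : Subgroup ↥(N ⊓ π.ker)) :
        Set ↥(N ⊓ π.ker)), φ (x : Γ) * φ (n⁻¹ * ((x⁻¹ : ↥(N ⊓ π.ker)) : Γ) * n) =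
        ∑ᶠ g ∈ ((N ⊓ G' : Subgroup Γ) : Set Γ), ψ g * ψ g⁻¹ := by
      refine finsum_mem_eq_of_bijOn (fun x : ↥(N ⊓ π.ker) => (x : Γ)) ⟨?_, ?_, ?_⟩ ?_
      · intro x hx
        exact hx
      · intro x _ y _ hxy
        exact Subtype.ext hxy
      · intro y hy
        exact ⟨⟨y, ⟨hy.1, hF.le hy.2⟩⟩, hy, rfl⟩
      · intro x hx
        have hxK : (x : Γ) ∈ N ⊓ G' := hx
        have hx2 : (n⁻¹ * ((x⁻¹ : ↥(N ⊓ π.ker)) : Γ) * n) ∈ N ⊓ G' := by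
          rw [Subgroup.coe_inv]
          refine ⟨N.mul_mem (N.mul_mem (N.inv_mem hn) (N.inv_mem hxK.1)) hn, ?_⟩
          have h4 := hF.nor.conj_mem (x : Γ)⁻¹ (G'.inv_mem hxK.2) n⁻¹
          rw [inv_inv] at h4
          exact h4
        rw [hφψ _ hxK, hφψ _ hx2, hinv n hn, Subgroup.coe_inv]
    have h4 : ∑ᶠ g ∈ ((N ⊓ G' : Subgroup Γ) : Set Γ), ψ g * ψ g⁻¹ = ∑ᶠ g, ψ g * ψ g⁻¹ := by
      rw [← finsum_mem_univ (fun g => ψ g * ψ g⁻¹)]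
      apply finsum_mem_inter_support_eq
      ext g
      constructor
      · rintro ⟨_, h⟩
        exact ⟨Set.mem_univ _, h⟩
      · rintro ⟨_, h⟩
        refine ⟨?_, h⟩
        by_contra hg
        apply h
        show ψ g * ψ g⁻¹ = 0
        rw [hψ.1 g hg, zero_mul]
    have h5 : (Nat.card ((N ⊓ G').subgroupOf (N ⊓ π.ker)) : ℂ) =
        (Nat.card (N ⊓ G' : Subgroup Γ) : ℂ) := by
      have h6 : Nat.card ((N ⊓ G').subgroupOf (N ⊓ π.ker)) =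
          Nat.card (N ⊓ G' : Subgroup Γ) :=
        Nat.card_congr (Subgroup.subgroupOfEquivOfLe (inf_le_inf_left N hF.le)).toEquiv
      rw [h6]
    rw [h5] at h1
    have h7 : (Nat.card (N ⊓ G' : Subgroup Γ) : ℂ) ≠ 0 := by
      exact_mod_cast Nat.card_pos.ne'
    have h8 := (h3.trans (h4.trans h2)).symm.trans h1
    have h9 : (Nat.card {a : Λ // ∀ x : ↥(N ⊓ π.ker),
      ((lam a x : ℂˣ) : ℂ) * φ (x : Γ) = φ (n⁻¹ * (x : Γ) * n)} : ℂ) = 1 := by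
      have h10 := mul_left_cancel₀ h7 ((mul_one _).trans h8)
      exact h10.symm
    exact_mod_cast h9
  have hex : ∀ n : N, ∃ a : Λ, ∀ x : ↥(N ⊓ π.ker),
      ((lam a x : ℂˣ) : ℂ) * φ (x : Γ) = φ ((n : Γ)⁻¹ * (x : Γ) * n) := by
    intro n
    obtain ⟨_, ⟨a⟩⟩ := Nat.card_eq_one_iff_unique.1 (hone n n.2)
    exact ⟨a.1, a.2⟩
  choose μ hμ using hex
  have huni : ∀ (n : N) (a : Λ), (∀ x : ↥(N ⊓ π.ker),
      ((lam a x : ℂˣ) : ℂ) * φ (x : Γ) = φ ((n : Γ)⁻¹ * (x : Γ) * n)) → μ n = a := by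
    intro n a ha
    obtain ⟨hs, _⟩ := Nat.card_eq_one_iff_unique.1 (hone n n.2)
    have h1 := hs.elim (⟨μ n, hμ n⟩ : {a : Λ // ∀ x : ↥(N ⊓ π.ker),
      ((lam a x : ℂˣ) : ℂ) * φ (x : Γ) = φ ((n : Γ)⁻¹ * (x : Γ) * n)}) ⟨a, ha⟩
    exact congrArg Subtype.val h1
  -- the linear characters are invariant under N
  have hlinv : ∀ (a : Λ) (m : N) (x : ↥(N ⊓ π.ker)) (hx : (m : Γ)⁻¹ * (x : Γ) * m ∈ N ⊓ π.ker),
      lam a ⟨(m : Γ)⁻¹ * (x : Γ) * m, hx⟩ = lam a x := by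
    intro a m x hx
    have h1 : (⟨(m : Γ)⁻¹ * (x : Γ) * m, hx⟩ : ↥(N ⊓ π.ker)) * x⁻¹ ∈
        (N ⊓ G').subgroupOf (N ⊓ π.ker) := by
      rw [Subgroup.mem_subgroupOf]
      have h2 := hF.cen (m : Γ)⁻¹ (x : Γ) x.2.2
      rw [inv_inv] at h2
      refine ⟨?_, h2⟩
      exact N.mul_mem hx.1 (N.inv_mem x.2.1)
    have h3 := htriv a _ h1
    rw [map_mul, map_inv, mul_inv_eq_one] at h3
    exact h3
  have hmem : ∀ (m : N) (x : ↥(N ⊓ π.ker)), (m : Γ)⁻¹ * (x : Γ) * m ∈ N ⊓ π.ker := by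
    intro m x
    refine ⟨N.mul_mem (N.mul_mem (N.inv_mem m.2) x.2.1) m.2, ?_⟩
    have h4 := hker.conj_mem (x : Γ) x.2.2 (m : Γ)⁻¹
    rw [inv_inv] at h4
    exact h4
  have hmul : ∀ m n : N, μ (m * n) = μ m * μ n := by
    intro m n
    apply huni
    intro x
    have h1 := hμ n ⟨_, hmem m x⟩
    rw [hlinv] at h1
    have h2 := hμ m x
    have h3 : ((m * n : N) : Γ)⁻¹ * (x : Γ) * ((m * n : N) : Γ) =
        (n : Γ)⁻¹ * ((m : Γ)⁻¹ * (x : Γ) * m) * n := by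
      rw [Subgroup.coe_mul]
      group
    rw [h3, ← h1]
    show ((lam (μ m * μ n) x : ℂˣ) : ℂ) * φ (x : Γ) = ((lam (μ n) x : ℂˣ) : ℂ) * φ ((m : Γ)⁻¹ * (x : Γ) * m)
    rw [← h2, map_mul, MonoidHom.mul_apply, Units.val_mul]
    ring
  set μ' : N →* Λ := MonoidHom.mk' μ hmul with hμ'
  have hcl : ∀ n : N, (n : Γ) ∈ π.ker → μ' n = 1 := by
    intro n hn
    show μ n = 1
    apply huni
    intro x
    rw [map_one, MonoidHom.one_apply, Units.val_one, one_mul]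
    have h1 := ((hB2 Γ (N ⊓ π.ker)).2 φ hφ).2.1 (x : Γ) (n : Γ)⁻¹
      ((N ⊓ π.ker).inv_mem ⟨n.2, hn⟩)
    rw [inv_inv] at h1
    exact h1.symm
  set f : N →* A := π.comp N.subtype with hf
  have hfs : Function.Surjective f := by
    intro a
    have h1 : a ∈ N.map π := by rw [hN]; exact Subgroup.mem_top a
    obtain ⟨n, hn, rfl⟩ := h1
    exact ⟨⟨n, hn⟩, rfl⟩
  have hfk : f.ker ≤ μ'.ker := by
    intro n hn
    rw [MonoidHom.mem_ker] at hn ⊢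
    exact hcl n hn
  have hBn : (μ'.ker.map f).Normal := Subgroup.Normal.map inferInstance f hfs
  have hBi : (μ'.ker.map f).index = μ'.ker.index := by
    rw [Subgroup.index_map, sup_eq_left.2 hfk, MonoidHom.range_eq_top.2 hfs, Subgroup.index_top,
      mul_one]
  have hdvd : μ'.ker.index ∣ l := by
    rw [Subgroup.index_ker]
    refine Dvd.dvd.trans (Subgroup.card_subgroup_dvd_card μ'.range) ?_
    have h1 : Nat.card Λ = (N ⊓ G').relIndex (N ⊓ π.ker) := by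
      have h2 : (N ⊓ G').relIndex (N ⊓ π.ker) * Nat.card ((N ⊓ G').subgroupOf (N ⊓ π.ker)) =
          Nat.card ↥(N ⊓ π.ker) := by
        rw [mul_comm]
        exact Subgroup.card_mul_index _
      exact Nat.eq_of_mul_eq_mul_right Nat.card_pos (hcard.trans h2.symm)
    rw [h1]
    exact KBS_rel π G' N l hF
  have htop : μ'.ker.index = 1 := by
    rcases (Nat.dvd_prime (Fact.out : l.Prime)).1 hdvd with h1 | h1
    · exact h1
    · exact absurd (hBi.trans h1) (hNoN _ hBn)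
  rw [Subgroup.index_eq_one] at htop
  intro n hn
  have h1 : μ' ⟨n, hn⟩ = 1 := by
    have h2 : (⟨n, hn⟩ : N) ∈ μ'.ker := by rw [htop]; exact Subgroup.mem_top _
    exact h2
  have h2 : μ ⟨n, hn⟩ = 1 := h1
  funext x
  rw [KBS_fm]
  by_cases hx : x ∈ N ⊓ π.ker
  · have h3 := hμ ⟨n, hn⟩ ⟨x, hx⟩
    rw [h2, map_one, MonoidHom.one_apply, Units.val_one, one_mul] at h3
    exact h3.symm
  · rw [hφ.1 x hx]
    apply hφ.1
    intro h3
    apply hx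
    have h4 : n * (n⁻¹ * x * n) * n⁻¹ ∈ N ⊓ π.ker :=
      ⟨N.mul_mem (N.mul_mem hn h3.1) (N.inv_mem hn), hker.conj_mem _ h3.2 n⟩
    have h5 : n * (n⁻¹ * x * n) * n⁻¹ = x := by group
    rw [h5] at h4
    exact h4

theorem KBS (hIF : IF_stmt) (hB2 : B2_stmt) (hB5 : B5_stmt) (hB8 : B8_stmt) : KBS_stmt := by
  intro Γ A _ _ _ l _ hNoN π G' N hF hN ψ hψ hst φ hφ hov
  exact KBS_main Γ A l hNoN π G' N hF hN ψ hψ hst φ hφ hov hIF hB2 hB5 hB8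

end Pool.Agent.KZ
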