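import Mathlib
import Pool.Agent.helper12.KZ.Spec
import Pool.Agent.helper80.DI.B12
import Pool.Agent.helper96.KZ.KBS

/-! Project kz, row KBW. -/

set_option autoImplicit false

namespace Pool.Agent.KZ

open Pool.Agent.helper58.DC Pool.Agent.DI Pool.Agent.TY

section

variable {Γ A : Type} [Group Γ] [Group A]

theorem KBW_fm_mul (a b : Γ) (ψ : Γ → ℂ) :
    funMap (MulAut.conj (a * b)) ψ = funMap (MulAut.conj a) (funMap (MulAut.conj b) ψ) := by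
  rw [map_mul, B12_funMap_mul]

theorem KBW_fm_inv (a : Γ) (ψ : Γ → ℂ) :
    funMap (MulAut.conj a) (funMap (MulAut.conj a⁻¹) ψ) = ψ := by
  rw [← KBW_fm_mul, mul_inv_cancel, map_one, B12_funMap_one]

theorem KBW_fm_inv' (a : Γ) (ψ : Γ → ℂ) :
    funMap (MulAut.conj a⁻¹) (funMap (MulAut.conj a) ψ) = ψ := by
  rw [← KBW_fm_mul, inv_mul_cancel, map_one, B12_funMap_one]

/-- transport of `OverP` -/
theorem KBW_over (N H L : Subgroup Γ) (hH : H.Normal) (hL : L.Normal) (n : Γ) (hn : n ∈ N)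
    (φ ψ : Γ → ℂ) (h : OverP (N ⊓ H) (N ⊓ L) φ ψ) :
    OverP (N ⊓ H) (N ⊓ L) (funMap (MulAut.conj n) φ) (funMap (MulAut.conj n) ψ) := by
  intro x hx
  have hx' : n⁻¹ * x * n ∈ N ⊓ H := by
    refine ⟨N.mul_mem (N.mul_mem (N.inv_mem hn) hx.1) hn, ?_⟩
    have h4 := hH.conj_mem x hx.2 n⁻¹
    rw [inv_inv] at h4
    exact h4
  rw [KBS_fm, h _ hx']
  refine finsum_mem_eq_of_bijOn (funMap (MulAut.conj n)) ⟨?_, ?_, ?_⟩ ?_
  · rintro ψ' ⟨m, hm, rfl⟩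
    refine ⟨n * m * n⁻¹, ?_, ?_⟩
    · exact ⟨N.mul_mem (N.mul_mem hn hm.1) (N.inv_mem hn), hL.conj_mem _ hm.2 n⟩
    · rw [← KBW_fm_mul, ← KBW_fm_mul]
      congr 2
      group
  · rintro ψ1 _ ψ2 _ h12
    have h3 := congrArg (funMap (MulAut.conj n⁻¹)) h12
    rw [KBW_fm_inv', KBW_fm_inv'] at h3
    exact h3
  · rintro ψ' ⟨m, hm, rfl⟩
    refine ⟨funMap (MulAut.conj (n⁻¹ * m * n)) ψ, ⟨n⁻¹ * m * n, ?_, rfl⟩, ?_⟩
    · refine ⟨N.mul_mem (N.mul_mem (N.inv_mem hn) hm.1) hn, ?_⟩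
      have h4 := hL.conj_mem m hm.2 n⁻¹
      rw [inv_inv] at h4
      exact h4
    · rw [← KBW_fm_mul, ← KBW_fm_mul]
      congr 2
      group
  · intro ψ' _
    rw [KBS_fm]

theorem KBW_card [Finite Γ] (π : Γ →* A) (N : Subgroup Γ) (hN : N.map π = ⊤) :
    Nat.card N = Nat.card A * Nat.card (N ⊓ π.ker : Subgroup Γ) := by
  have hfs : Function.Surjective (π.comp N.subtype) := by
    intro a
    have h1 : a ∈ N.map π := by rw [hN]; exact Subgroup.mem_top a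
    obtain ⟨n, hn, rfl⟩ := h1
    exact ⟨⟨n, hn⟩, rfl⟩
  have h1 := Subgroup.card_mul_index (π.comp N.subtype).ker
  rw [Subgroup.index_ker, MonoidHom.range_eq_top.2 hfs, Subgroup.card_top] at h1
  have h2 : Nat.card (π.comp N.subtype).ker = Nat.card (N ⊓ π.ker : Subgroup Γ) := by
    refine Nat.card_congr ⟨fun x => ⟨(x.1 : Γ), ⟨x.1.2, x.2⟩⟩, fun y => ⟨⟨y.1, y.2.1⟩, y.2.2⟩,
      ?_, ?_⟩
    · intro x; rfl
    · intro y; rfl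
  rw [h2] at h1
  rw [← h1, mul_comm]

/-- decomposition of elements of `N` -/
theorem KBW_dec (π : Γ →* A) (N : Subgroup Γ) (ψ : Γ → ℂ) (h : (stF N ψ).map π = ⊤) (n : Γ)
    (hn : n ∈ N) : ∃ s ∈ stF N ψ, ∃ n₁ ∈ N ⊓ π.ker, n = s * n₁ := by
  have h1 : π n ∈ (stF N ψ).map π := by rw [h]; exact Subgroup.mem_top _
  obtain ⟨s, hs, hs2⟩ := h1
  refine ⟨s, hs, s⁻¹ * n, ⟨N.mul_mem (N.inv_mem hs.1) hn, ?_⟩, by group⟩
  show π (s⁻¹ * n) = 1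
  rw [map_mul, map_inv, hs2, inv_mul_cancel]

end

theorem KBW_inv (Γ A : Type) [Group Γ] [Group A] [Finite Γ] (l : ℕ) [Fact l.Prime]
    (hNoN : NoN l A) (π : Γ →* A) (G' N : Subgroup Γ) (hF : Fr l π G') (hN : N.map π = ⊤)
    (hIF : IF_stmt) (hKBC : KBC_stmt) (hKBS : KBS_stmt) (φ : Γ → ℂ)
    (hφ : φ ∈ IrrOn (N ⊓ π.ker)) (ψ : Γ → ℂ) (hψ : ψ ∈ IrrOn (N ⊓ G'))
    (hov : OverP (N ⊓ G') (N ⊓ π.ker) φ ψ) :
    (∀ n ∈ N, funMap (MulAut.conj n) φ = φ) ↔ (stF N ψ).map π = ⊤ := by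
  classical
  have hker : π.ker.Normal := inferInstance
  have hle : N ⊓ G' ≤ N ⊓ π.ker := inf_le_inf_left N hF.le
  obtain ⟨b1, b2, b3⟩ := hKBC Γ (N ⊓ G') (N ⊓ π.ker) hle (KBS_cyc π G' N l hF)
  constructor
  · intro hinv
    rw [eq_top_iff]
    intro a _
    have h1 : a ∈ N.map π := by rw [hN]; exact Subgroup.mem_top a
    obtain ⟨n, hn, rfl⟩ := h1
    have h2 : funMap (MulAut.conj n) ψ ∈ IrrOn (N ⊓ G') := by
      have h3 := ((hIF Γ (N ⊓ G')).2 ψ hψ).2.2 (MulAut.conj n)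
      rw [KBS_conj N G' hF.nor n hn] at h3
      exact h3
    have h4 : OverP (N ⊓ G') (N ⊓ π.ker) φ (funMap (MulAut.conj n) ψ) := by
      have h5 := KBW_over N G' π.ker hF.nor hker n hn φ ψ hov
      rw [hinv n hn] at h5
      exact h5
    obtain ⟨n₁, hn₁, he⟩ := b3 φ ψ hψ _ h2 hov h4
    refine ⟨n₁⁻¹ * n, ⟨N.mul_mem (N.inv_mem hn₁.1) hn, ?_⟩, ?_⟩
    · rw [KBW_fm_mul, he, KBW_fm_inv']
    · have h6 : π n₁ = 1 := hn₁.2
      rw [map_mul, map_inv, h6, inv_one, one_mul]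
  · intro hst
    have hr2 := b2 ψ hψ
    have hKst : N ⊓ G' ≤ stF (N ⊓ π.ker) ψ := by
      intro x hx
      refine ⟨hle hx, ?_⟩
      funext y
      rw [KBS_fm]
      have h1 := ((hIF Γ (N ⊓ G')).2 ψ hψ).2.1 x⁻¹ ((N ⊓ G').inv_mem hx) y
      rw [inv_inv] at h1
      exact h1
    have hstle : stF (N ⊓ π.ker) ψ ≤ N ⊓ π.ker := fun x hx => hx.1
    have hrel : (N ⊓ G').relIndex (stF (N ⊓ π.ker) ψ) * Nat.card (N ⊓ G' : Subgroup Γ) =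
        Nat.card (stF (N ⊓ π.ker) ψ) := by
      have h1 := Subgroup.card_mul_index ((N ⊓ G').subgroupOf (stF (N ⊓ π.ker) ψ))
      have h2 : Nat.card ((N ⊓ G').subgroupOf (stF (N ⊓ π.ker) ψ)) =
          Nat.card (N ⊓ G' : Subgroup Γ) :=
        Nat.card_congr (Subgroup.subgroupOfEquivOfLe hKst).toEquiv
      rw [h2, mul_comm] at h1
      exact h1
    have hreq : Nat.card {φ : Γ → ℂ // φ ∈ IrrOn (N ⊓ π.ker) ∧
        OverP (N ⊓ G') (N ⊓ π.ker) φ ψ} = (N ⊓ G').relIndex (stF (N ⊓ π.ker) ψ) :=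
      Nat.eq_of_mul_eq_mul_right Nat.card_pos (hr2.trans hrel.symm)
    have hmulrel : (N ⊓ G').relIndex (stF (N ⊓ π.ker) ψ) *
        (stF (N ⊓ π.ker) ψ).relIndex (N ⊓ π.ker) = (N ⊓ G').relIndex (N ⊓ π.ker) :=
      Subgroup.relIndex_mul_relIndex _ _ _ hKst hstle
    have hdl := KBS_rel π G' N l hF
    have hpos : 0 < (stF (N ⊓ π.ker) ψ).relIndex (N ⊓ π.ker) := by
      rw [Nat.pos_iff_ne_zero]
      exact Subgroup.index_ne_zero_of_finite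
    have hrdl : (N ⊓ G').relIndex (stF (N ⊓ π.ker) ψ) ∣ l :=
      Dvd.dvd.trans ⟨_, hmulrel.symm⟩ hdl
    rcases (Nat.dvd_prime (Fact.out : l.Prime)).1 hrdl with h1 | h1
    · rw [h1] at hreq
      obtain ⟨hs, _⟩ := Nat.card_eq_one_iff_unique.1 hreq
      intro n hn
      obtain ⟨s, hs1, n₁, hn₁, rfl⟩ := KBW_dec π N ψ hst n hn
      have h2 : funMap (MulAut.conj n₁) φ = φ := by
        funext y
        rw [KBS_fm]
        have h3 := ((hIF Γ (N ⊓ π.ker)).2 φ hφ).2.1 n₁⁻¹ ((N ⊓ π.ker).inv_mem hn₁) y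
        rw [inv_inv] at h3
        exact h3
      rw [KBW_fm_mul, h2]
      have h3 : funMap (MulAut.conj s) φ ∈ IrrOn (N ⊓ π.ker) := by
        have h4 := ((hIF Γ (N ⊓ π.ker)).2 φ hφ).2.2 (MulAut.conj s)
        rw [KBS_conj N π.ker hker s hs1.1] at h4
        exact h4
      have h5 : OverP (N ⊓ G') (N ⊓ π.ker) (funMap (MulAut.conj s) φ) ψ := by
        have h6 := KBW_over N G' π.ker hF.nor hker s hs1.1 φ ψ hov
        rw [hs1.2] at h6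
        exact h6
      have h7 := hs.elim (⟨funMap (MulAut.conj s) φ, h3, h5⟩ : {φ : Γ → ℂ //
        φ ∈ IrrOn (N ⊓ π.ker) ∧ OverP (N ⊓ G') (N ⊓ π.ker) φ ψ}) ⟨φ, hφ, hov⟩
      exact congrArg Subtype.val h7
    · have h2 : (stF (N ⊓ π.ker) ψ).relIndex (N ⊓ π.ker) = 1 := by
        rw [h1] at hmulrel
        have h3 : l * (stF (N ⊓ π.ker) ψ).relIndex (N ⊓ π.ker) ∣ l := by
          rw [hmulrel]
          exact hdl
        have hl : 0 < l := (Fact.out : l.Prime).pos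
        have h4 : l * (stF (N ⊓ π.ker) ψ).relIndex (N ⊓ π.ker) ≤ l * 1 := by
          rw [mul_one]
          exact Nat.le_of_dvd hl h3
        have h5 := Nat.le_of_mul_le_mul_left h4 hl
        omega
      have h3 : N ⊓ π.ker ≤ stF (N ⊓ π.ker) ψ := Subgroup.relIndex_eq_one.1 h2
      have h4 : stF N ψ = N := by
        apply le_antisymm (fun x hx => hx.1)
        intro n hn
        obtain ⟨s, hs1, n₁, hn₁, rfl⟩ := KBW_dec π N ψ hst n hn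
        refine (stF N ψ).mul_mem hs1 ⟨hn₁.1, (h3 hn₁).2⟩
      exact hKBS Γ A l hNoN π G' N hF hN ψ hψ h4 φ hφ hov

theorem KBW_main (Γ A : Type) [Group Γ] [Group A] [Finite Γ] (p l : ℕ) [Fact p.Prime]
    [Fact l.Prime] (M : Ideal (integralClosure ℤ ℂ)) (hNoN : NoN l A) (π : Γ →* A)
    (G' G₀ N : Subgroup Γ) (hF : Fr l π G') (hG : G₀ ≤ G') (τ : Γ → ℂ) (d : ℤ)
    (hN : N.map π = ⊤) (hIF : IF_stmt) (hKBC : KBC_stmt) (hKBS : KBS_stmt) (h11 : B11_stmt) :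
    gst p M π G₀ τ d N = (Nat.card A : ℤ) * (Nat.card (N ⊓ G' : Subgroup Γ) *
      ∑ᶠ ψ ∈ {ψ : Γ → ℂ | ψ ∈ IrrOn (N ⊓ G') ∧ Cov M G₀ τ ψ ∧ (stF N ψ).map π = ⊤ ∧
        Defect p (N ⊓ G') ψ (d - padicValNat p (rr G' (N ⊓ π.ker) ψ))},
        ((rr G' (N ⊓ π.ker) ψ : ℤ) ^ 2)) := by
  classical
  have hle : N ⊓ G' ≤ N ⊓ π.ker := inf_le_inf_left N hF.le
  obtain ⟨b1, b2, b3⟩ := hKBC Γ (N ⊓ G') (N ⊓ π.ker) hle (KBS_cyc π G' N l hF)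
  have hinf := KBS_inf π G' N hF.le
  have hcardN := KBW_card π N hN
  set K : Subgroup Γ := N ⊓ G' with hK
  set N₁ : Subgroup Γ := N ⊓ π.ker with hN₁
  obtain ⟨fN, iN⟩ := hIF Γ N₁
  obtain ⟨fK, iK⟩ := hIF Γ K
  have hrr : ∀ ψ ∈ IrrOn K, Nat.card {φ : Γ → ℂ // φ ∈ IrrOn N₁ ∧ OverP K N₁ φ ψ} =
      rr G' N₁ ψ := by
    intro ψ hψ
    have h := b2 ψ hψ
    unfold rr
    rw [hinf, ← h]
    exact (Nat.mul_div_cancel _ Nat.card_pos).symm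
  have hrr2 : ∀ ψ ∈ IrrOn K, rr G' N₁ ψ * Nat.card K = Nat.card (stF N₁ ψ) := by
    intro ψ hψ
    rw [← hrr ψ hψ]
    exact b2 ψ hψ
  have hPQ : ∀ φ ∈ IrrOn N₁, ∀ ψ ∈ IrrOn K, OverP K N₁ φ ψ →
      ((Defect p N₁ φ d ∧ Cov M G₀ τ φ ∧ ∀ n ∈ N, funMap (MulAut.conj n) φ = φ) ↔
        (Cov M G₀ τ ψ ∧ (stF N ψ).map π = ⊤ ∧
          Defect p K ψ (d - padicValNat p (rr G' N₁ ψ)))) := by
    intro φ hφ ψ hψ hR
    have e1 := B12_defect p K N₁ φ ψ (rr G' N₁ ψ) hR (hrr2 ψ hψ) (iN φ hφ).1 (iK ψ hψ).1 d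
    have e3 := KBW_inv Γ A l hNoN π G' N hF hN hIF hKBC hKBS φ hφ ψ hψ hR
    have e4 : ∀ g ∈ G₀, omega φ g = omega ψ g := by
      intro g hg
      refine h11 Γ G' N₁ hF.nor φ hφ ψ ?_ ?_ g (hG hg)
      · rw [hinf]; exact hψ
      · rw [hinf]; exact hR
    have e2 : Cov M G₀ τ φ ↔ Cov M G₀ τ ψ := by
      unfold Cov
      constructor
      · intro h g hg
        rw [← e4 g hg]
        exact h g hg
      · intro h g hg
        rw [e4 g hg]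
        exact h g hg
    rw [e1, e2, e3]
    tauto
  set Φ : Finset (Γ → ℂ) := fN.toFinset.filter
    (fun φ => Defect p N₁ φ d ∧ Cov M G₀ τ φ ∧ ∀ n ∈ N, funMap (MulAut.conj n) φ = φ) with hΦ
  set Ψ : Finset (Γ → ℂ) := fK.toFinset.filter
    (fun ψ => Cov M G₀ τ ψ ∧ (stF N ψ).map π = ⊤ ∧
      Defect p K ψ (d - padicValNat p (rr G' N₁ ψ))) with hΨ
  have mΦ : ∀ φ, φ ∈ Φ ↔ φ ∈ IrrOn N₁ ∧ Defect p N₁ φ d ∧ Cov M G₀ τ φ ∧
      ∀ n ∈ N, funMap (MulAut.conj n) φ = φ := by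
    intro φ
    rw [hΦ, Finset.mem_filter, Set.Finite.mem_toFinset]
  have mΨ : ∀ ψ, ψ ∈ Ψ ↔ ψ ∈ IrrOn K ∧ Cov M G₀ τ ψ ∧ (stF N ψ).map π = ⊤ ∧
      Defect p K ψ (d - padicValNat p (rr G' N₁ ψ)) := by
    intro ψ
    rw [hΨ, Finset.mem_filter, Set.Finite.mem_toFinset]
  have hL : gst p M π G₀ τ d N = (Nat.card A : ℤ) * ∑ φ ∈ Φ, (Nat.card N₁ : ℤ) := by
    unfold gst
    rw [if_pos hN, Finset.sum_const, nsmul_eq_mul, hcardN]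
    have : Nat.card {φ : Γ → ℂ // φ ∈ IrrOn N₁ ∧ Defect p N₁ φ d ∧ Cov M G₀ τ φ ∧
        ∀ n ∈ N, funMap (MulAut.conj n) φ = φ} = Φ.card := by
      rw [← Nat.card_eq_finsetCard Φ]
      exact Nat.card_congr (Equiv.subtypeEquivRight fun φ => (mΦ φ).symm)
    rw [this]
    push_cast
    ring
  have hR : ∑ᶠ ψ ∈ {ψ : Γ → ℂ | ψ ∈ IrrOn K ∧ Cov M G₀ τ ψ ∧ (stF N ψ).map π = ⊤ ∧
        Defect p K ψ (d - padicValNat p (rr G' N₁ ψ))}, ((rr G' N₁ ψ : ℤ) ^ 2) =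
      ∑ ψ ∈ Ψ, (rr G' N₁ ψ : ℤ) ^ 2 := by
    have hset : {ψ : Γ → ℂ | ψ ∈ IrrOn K ∧ Cov M G₀ τ ψ ∧ (stF N ψ).map π = ⊤ ∧
        Defect p K ψ (d - padicValNat p (rr G' N₁ ψ))} = (Ψ : Set (Γ → ℂ)) := by
      ext ψ
      rw [Finset.mem_coe, mΨ]
      rfl
    rw [hset]
    exact finsum_mem_coe_finset _ _
  rw [hL, hR]
  congr 1
  have c1 : ∀ φ ∈ Φ, (Nat.card N₁ : ℤ) =
      ∑ ψ ∈ Ψ, if OverP K N₁ φ ψ then (Nat.card (stF N₁ ψ) : ℤ) else 0 := by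
    intro φ hφ
    rw [mΦ] at hφ
    obtain ⟨hφ1, hφ2⟩ := hφ
    obtain ⟨ψ₀, hψ₀, hR₀⟩ := b1 φ hφ1
    rw [← Finset.sum_filter]
    refine (B12_sum_orb N₁ ψ₀ _ ?_).symm
    ext ψ
    rw [Finset.mem_coe, Finset.mem_filter, mΨ]
    constructor
    · rintro ⟨⟨hψ, -⟩, hRψ⟩
      exact b3 φ ψ₀ hψ₀ ψ hψ hR₀ hRψ
    · intro hψ
      have hψK : ψ ∈ IrrOn K := by
        obtain ⟨n, hn, rfl⟩ := hψ
        have := (iK ψ₀ hψ₀).2.2 (MulAut.conj n)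
        rw [hK, KBS_conj N G' hF.nor n hn.1] at this
        exact this
      have hRψ : OverP K N₁ φ ψ := (B12_over_orb K N₁ φ ψ₀ ψ hψ).2 hR₀
      exact ⟨⟨hψK, (hPQ φ hφ1 ψ hψK hRψ).1 hφ2⟩, hRψ⟩
  rw [Finset.sum_congr rfl c1, Finset.sum_comm, Finset.mul_sum]
  refine Finset.sum_congr rfl fun ψ hψ => ?_
  rw [mΨ] at hψ
  obtain ⟨hψ1, hψ2⟩ := hψ
  rw [← Finset.sum_filter, Finset.sum_const, nsmul_eq_mul]
  have c2 : (Φ.filter fun φ => OverP K N₁ φ ψ).card = rr G' N₁ ψ := by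
    rw [← hrr ψ hψ1, ← Nat.card_eq_finsetCard]
    refine Nat.card_congr (Equiv.subtypeEquivRight fun φ => ?_)
    rw [Finset.mem_filter, mΦ]
    constructor
    · rintro ⟨⟨h1, -⟩, h2⟩
      exact ⟨h1, h2⟩
    · rintro ⟨h1, h2⟩
      exact ⟨⟨h1, (hPQ φ h1 ψ hψ1 h2).2 hψ2⟩, h2⟩
  rw [c2, ← hrr2 ψ hψ1]
  push_cast
  ring

theorem KBW (hIF : IF_stmt) (hKBC : KBC_stmt) (hKBS : KBS_stmt) (h11 : B11_stmt) :
    KBW_stmt := by
  intro Γ A _ _ _ p l _ _ M hNoN π G' G₀ N hF hG τ d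
  by_cases hN : N.map π = ⊤
  · exact KBW_main Γ A p l M hNoN π G' G₀ N hF hG τ d hN hIF hKBC hKBS h11
  · have h1 : gst p M π G₀ τ d N = 0 := by
      unfold gst
      rw [if_neg hN]
    have h2 : {ψ : Γ → ℂ | ψ ∈ IrrOn (N ⊓ G') ∧ Cov M G₀ τ ψ ∧ (stF N ψ).map π = ⊤ ∧
        Defect p (N ⊓ G') ψ (d - padicValNat p (rr G' (N ⊓ π.ker) ψ))} = ∅ := by
      rw [Set.eq_empty_iff_forall_notMem]
      rintro ψ ⟨_, _, h3, _⟩
      apply hN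
      rw [eq_top_iff, ← h3]
      exact Subgroup.map_mono (fun x hx => hx.1)
    rw [h1, h2, finsum_mem_empty]
    ring

end Pool.Agent.KZ
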